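import Pool.Agent.Helper20.QD.St6

/-!
# Project QD, part B (MP_d112a4_gt), module DIM: the extension is a local diffeomorphism
-/

set_option autoImplicit false

open Filter Topology Matrix Set Metric
open scoped ComplexConjugate

namespace Pool.Agent.Helper90.QD

open Pool.Agent.Helper35.PM Pool.Agent.Helper20.QD

/-! ### Poisson integrals -/

private theorem exp_mem (t : ℝ) : Complex.exp (t * Complex.I) ∈ SS := by
  simp [Complex.norm_exp_ofReal_mul_I]

private theorem PI_congr {u v : ℂ → ℂ} (h : ∀ ζ ∈ SS, u ζ = v ζ) (z : ℂ) : PI u z = PI v z := by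
  unfold PI
  congr 1
  apply intervalIntegral.integral_congr
  intro t _
  simp only
  rw [h _ (exp_mem t)]

private theorem PI_mul (c : ℂ) (u : ℂ → ℂ) (z : ℂ) : PI (fun ζ => c * u ζ) z = c * PI u z := by
  unfold PI
  have h : (fun t : ℝ => (PK z (Complex.exp (t * Complex.I)) : ℂ) *
      (c * u (Complex.exp (t * Complex.I)))) = fun t : ℝ => c *
      ((PK z (Complex.exp (t * Complex.I)) : ℂ) * u (Complex.exp (t * Complex.I))) := by
    funext t
    ring
  rw [h, intervalIntegral.integral_const_mul]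
  ring

private theorem norm_lt {z : ℂ} (hz : z ∈ D) : ‖z‖ < 1 := by simpa using hz

private theorem norm_eq {z : ℂ} (hz : z ∈ SS) : ‖z‖ = 1 := by simpa using hz

private theorem PI_cont {u : ℂ → ℂ} (hu : ContinuousOn u SS) {z : ℂ} (hz : z ∈ D) :
    Continuous (fun t : ℝ =>
      (PK z (Complex.exp (t * Complex.I)) : ℂ) * u (Complex.exp (t * Complex.I))) := by
  have h1 : Continuous (fun t : ℝ => Complex.exp (t * Complex.I)) := by fun_prop
  have h2 : Continuous fun t : ℝ => u (Complex.exp (t * Complex.I)) :=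
    hu.comp_continuous h1 exp_mem
  have h3 : Continuous (fun t : ℝ => PK z (Complex.exp (t * Complex.I))) := by
    unfold PK
    refine Continuous.div continuous_const (by fun_prop) ?_
    intro t h
    have h4 : ‖Complex.exp (t * Complex.I) - z‖ = 0 := by
      rcases pow_eq_zero_iff (two_ne_zero) |>.1 h with h5
      exact h5
    have h5 : Complex.exp (t * Complex.I) = z := sub_eq_zero.1 (norm_eq_zero.1 h4)
    have h6 := norm_eq (exp_mem t)
    rw [h5] at h6
    exact absurd h6 (norm_lt hz).ne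
  exact (Complex.continuous_ofReal.comp h3).mul h2

private theorem PI_add {u v : ℂ → ℂ} (hu : ContinuousOn u SS) (hv : ContinuousOn v SS) {z : ℂ}
    (hz : z ∈ D) : PI (fun ζ => u ζ + v ζ) z = PI u z + PI v z := by
  unfold PI
  rw [← mul_add, ← intervalIntegral.integral_add ((PI_cont hu hz).intervalIntegrable _ _)
    ((PI_cont hv hz).intervalIntegrable _ _)]
  congr 2
  ext t
  ring

/-! ### the disc automorphism `TT w` -/

private theorem one_sub_ne {w η : ℂ} (hw : ‖w‖ < 1) (hη : ‖η‖ = 1) : 1 - conj w * η ≠ 0 := by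
  intro h
  have h1 : conj w * η = 1 := (sub_eq_zero.1 h).symm
  have h2 := congrArg norm h1
  rw [norm_mul, hη, mul_one, norm_one, Complex.norm_conj] at h2
  exact hw.ne h2

private theorem conj_mul_self {η : ℂ} (hη : ‖η‖ = 1) : conj η * η = 1 := by
  rw [Complex.conj_mul', hη]
  simp

private theorem TT_norm {w η : ℂ} (hw : ‖w‖ < 1) (hη : ‖η‖ = 1) : ‖TT w η‖ = 1 := by
  have h1 : 1 - conj w * η = conj (η - w) * η := by
    rw [map_sub, sub_mul, conj_mul_self hη]
  have h2 := one_sub_ne hw hη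
  rw [TT, norm_div, h1, norm_mul, hη, mul_one, Complex.norm_conj]
  rw [h1] at h2
  have h3 : ‖η - w‖ ≠ 0 := by
    intro h4
    rw [norm_eq_zero.1 h4] at h2
    simp at h2
  exact div_self h3

private theorem sq_ne {w : ℂ} (hw : ‖w‖ < 1) : (1 : ℂ) - conj w * w ≠ 0 := by
  rw [Complex.conj_mul']
  intro h
  have h1 : ((1 - ‖w‖ ^ 2 : ℝ) : ℂ) = 0 := by
    push_cast
    exact h
  have h2 : (1 - ‖w‖ ^ 2 : ℝ) = 0 := by exact_mod_cast h1
  nlinarith [norm_nonneg w]

private theorem TT_inj {w : ℂ} (hw : ‖w‖ < 1) {x y : ℂ} (hx : ‖x‖ = 1) (hy : ‖y‖ = 1)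
    (h : TT w x = TT w y) : x = y := by
  have h1 := one_sub_ne hw hx
  have h2 := one_sub_ne hw hy
  unfold TT at h
  rw [div_eq_div_iff h1 h2] at h
  have h3 : (x - y) * (1 - conj w * w) = 0 := by linear_combination h
  rcases mul_eq_zero.1 h3 with h4 | h4
  · exact sub_eq_zero.1 h4
  · exact absurd h4 (sq_ne hw)

private theorem TT_cont {w : ℂ} (hw : ‖w‖ < 1) : ContinuousOn (TT w) SS := by
  unfold TT
  refine ContinuousOn.div (by fun_prop) (by fun_prop) ?_
  intro η hη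
  exact one_sub_ne hw (norm_eq hη)

/-! ### logarithms -/

private theorem log_near {w : ℂ} (h5 : ∀ (K : Set ℂ) (u : ℂ → ℂ), ContinuousOn u K →
    (∀ z ∈ K, ‖u z - 1‖ < 1) → LogOn K u) (hw : ‖w‖ < 1) :
    LogOn SS (fun η => 1 + w * η) ∧ LogOn SS (fun η => 1 + w * η⁻¹) := by
  constructor
  · apply h5
    · fun_prop
    · intro z hz
      rw [add_sub_cancel_left, norm_mul, norm_eq hz, mul_one]
      exact hw
  · apply h5
    · apply ContinuousOn.add continuousOn_const
      apply ContinuousOn.mul continuousOn_const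
      apply ContinuousOn.inv₀ continuousOn_id
      intro z hz h0
      have := norm_eq hz
      rw [id] at h0
      rw [h0, norm_zero] at this
      exact zero_ne_one this
    · intro z hz
      rw [add_sub_cancel_left, norm_mul, norm_inv, norm_eq hz, inv_one, mul_one]
      exact hw

private theorem log_TT {w : ℂ} (hT : StTPB) (hw : ‖w‖ < 1) :
    LogOn SS (fun η => TT w η * η ^ (-1 : ℤ)) := by
  obtain ⟨-, -, h3, h4, h5, h6⟩ := hT
  have hw1 : ‖-w‖ < 1 := by rwa [norm_neg]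
  have hw2 : ‖-conj w‖ < 1 := by rwa [norm_neg, Complex.norm_conj]
  have a1 := (log_near h5 hw1).2
  have a2 := h4 _ _ (-1) (log_near h5 hw2).1
  refine h6 SS SS _ _ (subset_refl _) (h3 _ _ _ a1 a2) ?_
  intro η hη
  have hn := norm_eq hη
  have h0 : η ≠ 0 := by
    intro h
    rw [h, norm_zero] at hn
    exact zero_ne_one hn
  have hne := one_sub_ne hw hn
  simp only [TT, _root_.zpow_neg, _root_.zpow_one]
  have hne' : 1 + -conj w * η ≠ 0 := by
    intro h
    apply hne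
    linear_combination h
  have e : 1 + -conj w * η = 1 - conj w * η := by ring
  rw [e]
  field_simp
  ring

/-! ### `SU(1,1)` -/

private theorem su_det {B : SL} (hB : IsSU B) :
    (B : Mat) 0 0 * conj ((B : Mat) 0 0) - (B : Mat) 0 1 * conj ((B : Mat) 0 1) = 1 := by
  have h := B.2
  rw [Matrix.det_fin_two] at h
  rw [← hB.1, ← hB.2]
  exact h

private theorem su_norm {B : SL} (hB : IsSU B) :
    ‖(B : Mat) 0 0‖ ^ 2 - ‖(B : Mat) 0 1‖ ^ 2 = 1 := by
  have h := su_det hB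
  rw [Complex.mul_conj', Complex.mul_conj'] at h
  exact_mod_cast h

private theorem su_a {B : SL} (hB : IsSU B) : (B : Mat) 0 0 ≠ 0 := by
  intro h
  have := su_norm hB
  rw [h, norm_zero] at this
  nlinarith [sq_nonneg ‖(B : Mat) 0 1‖]

private theorem su_b {B : SL} (hB : IsSU B) : ‖(B : Mat) 0 1 / (B : Mat) 0 0‖ < 1 := by
  rw [norm_div, div_lt_one (norm_pos_iff.2 (su_a hB))]
  have := su_norm hB
  nlinarith [norm_nonneg ((B : Mat) 0 0), norm_nonneg ((B : Mat) 0 1)]

private theorem su_mob {B : SL} (hB : IsSU B) (ζ : ℂ) : mob B ζ =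
    ((B : Mat) 0 0 * ζ + (B : Mat) 0 1) / (conj ((B : Mat) 0 1) * ζ + conj ((B : Mat) 0 0)) := by
  unfold mob
  rw [hB.1, hB.2]

private theorem su_den {B : SL} (hB : IsSU B) {ζ : ℂ} (hζ : ‖ζ‖ = 1) :
    conj ((B : Mat) 0 1) * ζ + conj ((B : Mat) 0 0) ≠ 0 := by
  intro h
  have h1 : conj ((B : Mat) 0 0) = -(conj ((B : Mat) 0 1) * ζ) := by linear_combination h
  have h2 := congrArg norm h1
  rw [norm_neg, norm_mul, hζ, mul_one, Complex.norm_conj, Complex.norm_conj] at h2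
  have := su_norm hB
  rw [h2] at this
  simp at this

private theorem log_mob {B : SL} (hT : StTPB) (hB : IsSU B) :
    LogOn SS (fun η => mob B η * η ^ (-1 : ℤ)) := by
  obtain ⟨-, -, h3, h4, h5, h6⟩ := hT
  have ha := su_a hB
  have ha' : conj ((B : Mat) 0 0) ≠ 0 := by simpa using ha
  have hw1 := su_b hB
  have hw2 : ‖conj ((B : Mat) 0 1) / conj ((B : Mat) 0 0)‖ < 1 := by
    rw [← map_div₀, Complex.norm_conj]
    exact hw1
  have a1 := (log_near h5 hw1).2
  have a2 := h4 _ _ (-1) (log_near h5 hw2).1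
  have a3 : LogOn SS (fun _ : ℂ => (B : Mat) 0 0 / conj ((B : Mat) 0 0)) :=
    ⟨fun _ => Complex.log ((B : Mat) 0 0 / conj ((B : Mat) 0 0)), continuousOn_const,
      fun _ _ => (Complex.exp_log (div_ne_zero ha ha')).symm⟩
  refine h6 SS SS _ _ (subset_refl _) (h3 _ _ _ a3 (h3 _ _ _ a1 a2)) ?_
  intro η hη
  have hn := norm_eq hη
  have h0 : η ≠ 0 := by
    intro h
    rw [h, norm_zero] at hn
    exact zero_ne_one hn
  have hd := su_den hB hn
  simp only [su_mob hB, _root_.zpow_neg, _root_.zpow_one]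
  have e : 1 + conj ((B : Mat) 0 1) / conj ((B : Mat) 0 0) * η =
      (conj ((B : Mat) 0 1) * η + conj ((B : Mat) 0 0)) / conj ((B : Mat) 0 0) := by
    field_simp
    ring
  rw [e]
  field_simp

/-- `TT z0 (mob B ζ) = κ ζ` -/
private theorem TT_mob {B : SL} (hB : IsSU B) {ζ : ℂ} (hζ : ‖ζ‖ = 1) :
    TT (mob B 0) (mob B ζ) = (B : Mat) 0 0 / conj ((B : Mat) 0 0) * ζ := by
  have ha := su_a hB
  have ha' : conj ((B : Mat) 0 0) ≠ 0 := by simpa using ha
  have hd := su_den hB hζ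
  have hdet := su_det hB
  have h0 : mob B 0 = (B : Mat) 0 1 / conj ((B : Mat) 0 0) := by
    rw [su_mob hB]
    simp
  have h1 : mob B ζ - mob B 0 =
      ζ / (conj ((B : Mat) 0 0) * (conj ((B : Mat) 0 1) * ζ + conj ((B : Mat) 0 0))) := by
    rw [h0, su_mob hB, div_sub_div _ _ hd ha', div_eq_div_iff (mul_ne_zero hd ha')
      (mul_ne_zero ha' hd)]
    linear_combination (ζ * conj ((B : Mat) 0 0) *
      (conj ((B : Mat) 0 1) * ζ + conj ((B : Mat) 0 0))) * hdet
  have h2 : 1 - conj (mob B 0) * mob B ζ =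
      1 / ((B : Mat) 0 0 * (conj ((B : Mat) 0 1) * ζ + conj ((B : Mat) 0 0))) := by
    rw [h0, su_mob hB, map_div₀, Complex.conj_conj, div_mul_div_comm,
      eq_div_iff (mul_ne_zero ha hd), sub_mul, one_mul, div_mul_cancel₀ _ (mul_ne_zero ha hd)]
    linear_combination hdet
  unfold TT
  rw [h1, h2]
  generalize conj ((B : Mat) 0 1) * ζ + conj ((B : Mat) 0 0) = q at hd
  field_simp

/-! ### the comparison homeomorphism -/

private theorem deg_psi {φ : ℂ → ℂ} {B : SL} {w : ℂ} (hT : StTPB) (hS : StSUB) (hφ : Deg1 φ)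
    (hB : IsSU B) (hw : ‖w‖ < 1) : Deg1 (fun ζ => TT w (φ (mob B ζ))) := by
  obtain ⟨c1, c2, c3, c4⟩ := hφ
  have hmaps : MapsTo (mob B) SS SS := (hS.1 B hB).2.2.2.1.mapsTo
  have hinj : InjOn (mob B) SS := (hS.1 B hB).2.2.2.1.injOn
  have hcont : ContinuousOn (mob B) SS := by
    intro z hz
    have hne := (hS.1 B hB).2.1 z (by
      simp only [mem_closedBall, dist_zero_right]
      exact (norm_eq hz).le)
    exact (hS.2.2.2.2.1 B z hne).continuousAt.continuousWithinAt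
  have hφB : ContinuousOn (fun ζ => φ (mob B ζ)) SS := c1.comp hcont hmaps
  have hφm : MapsTo (fun ζ => φ (mob B ζ)) SS SS := fun ζ hζ => c3 (hmaps hζ)
  refine ⟨(TT_cont hw).comp hφB hφm, ?_, ?_, ?_⟩
  · intro x hx y hy hxy
    have h1 : φ (mob B x) = φ (mob B y) :=
      TT_inj hw (norm_eq (c3 (hmaps hx))) (norm_eq (c3 (hmaps hy))) hxy
    exact hinj hx hy (c2 (hmaps hx) (hmaps hy) h1)
  · intro x hx
    have := TT_norm hw (norm_eq (c3 (hmaps hx)))
    simpa using this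
  · have l1 := hT.1 SS SS (fun ζ => φ (mob B ζ)) _ hφB hφm (log_TT hT hw)
    have l2 := hT.1 SS SS (mob B) _ hcont hmaps c4
    have l3 := log_mob hT hB
    have l4 := hT.2.2.1 _ _ _ (hT.2.2.1 _ _ _ l1 l2) l3
    refine hT.2.2.2.2.2 SS SS _ _ (subset_refl _) l4 ?_
    intro ζ hζ
    have n1 : φ (mob B ζ) ≠ 0 := by
      intro h
      have := norm_eq (c3 (hmaps hζ))
      rw [h, norm_zero] at this
      exact zero_ne_one this
    have n2 : mob B ζ ≠ 0 := by
      intro h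
      have := norm_eq (hmaps hζ)
      rw [h, norm_zero] at this
      exact zero_ne_one this
    simp only [_root_.zpow_neg, _root_.zpow_one]
    field_simp

/-! ### the coefficients of the derivative -/

private theorem coeffs {φ : ℂ → ℂ} (hPIN : StPIN) (hS : StSUB) (hDPO : StDPO) (hT : StTPB)
    (hφ : Deg1 φ) {z w : ℂ} (hz : z ∈ D) (hw : w ∈ D) (h0 : FF φ z w = 0) :
    ‖PI (fun ζ => TT w (φ ζ) * TT z ζ) z / ((1 - ‖z‖ ^ 2 : ℝ) : ℂ)‖ <
      ‖PI (fun ζ => TT w (φ ζ) * conj (TT z ζ)) z / ((1 - ‖z‖ ^ 2 : ℝ) : ℂ)‖ ∧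
    ‖PI (fun ζ => (φ ζ - w) * φ ζ / (1 - conj w * φ ζ) ^ 2) z‖ <
      ‖PI (fun ζ => -1 / (1 - conj w * φ ζ)) z‖ := by
  have hz1 := norm_lt hz
  have hw1 := norm_lt hw
  obtain ⟨B, hB, hB0⟩ := hS.2.2.1 z hz
  have hmaps : MapsTo (mob B) SS SS := (hS.1 B hB).2.2.2.1.mapsTo
  have hψ := deg_psi hT hS hφ hB hw1
  obtain ⟨d1, d2⟩ := hDPO _ hψ
  obtain ⟨c1, c2, c3, c4⟩ := hφ
  have hx : ContinuousOn (fun ζ => TT w (φ ζ)) SS := (TT_cont hw1).comp c1 c3
  have hTz : ContinuousOn (TT z) SS := TT_cont hz1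
  have hD0 : (0 : ℂ) ∈ D := by simp
  have pull : ∀ u : ℂ → ℂ, ContinuousOn u SS → PI (fun ζ => u (mob B ζ)) 0 = PI u z := by
    intro u hu
    rw [hPIN.1 B u hB hu 0 hD0, hB0]
  have hκ : ‖(B : Mat) 0 0 / conj ((B : Mat) 0 0)‖ = 1 := by
    rw [norm_div, Complex.norm_conj]
    exact div_self (norm_ne_zero_iff.2 (su_a hB))
  have hzr : (0 : ℝ) < 1 - ‖z‖ ^ 2 := by nlinarith [norm_nonneg z]
  have hwr : (0 : ℝ) < 1 - ‖w‖ ^ 2 := by nlinarith [norm_nonneg w]
  constructor
  · have e1 : PI (fun ζ => TT w (φ ζ) * TT z ζ) z =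
        (B : Mat) 0 0 / conj ((B : Mat) 0 0) * PI (fun ζ => TT w (φ (mob B ζ)) * ζ) 0 := by
      rw [← pull (fun ζ => TT w (φ ζ) * TT z ζ) (hx.mul hTz), ← PI_mul]
      apply PI_congr
      intro ζ hζ
      have := TT_mob hB (norm_eq hζ)
      rw [hB0] at this
      rw [this]
      ring
    have e2 : PI (fun ζ => TT w (φ ζ) * conj (TT z ζ)) z =
        conj ((B : Mat) 0 0 / conj ((B : Mat) 0 0)) *
          PI (fun ζ => TT w (φ (mob B ζ)) * conj ζ) 0 := by
      rw [← pull (fun ζ => TT w (φ ζ) * conj (TT z ζ))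
        (hx.mul (Complex.continuous_conj.comp_continuousOn hTz)), ← PI_mul]
      apply PI_congr
      intro ζ hζ
      have := TT_mob hB (norm_eq hζ)
      rw [hB0] at this
      rw [this, map_mul]
      ring
    rw [norm_div, norm_div, e1, e2, norm_mul, norm_mul, Complex.norm_conj, hκ, one_mul, one_mul]
    apply div_lt_div_of_pos_right d1
    rw [Complex.norm_real, Real.norm_of_nonneg hzr.le]
    exact hzr
  · have hwc : (1 : ℂ) - conj w * w ≠ 0 := sq_ne hw1
    have hwcn : (1 : ℂ) - conj w * w = ((1 - ‖w‖ ^ 2 : ℝ) : ℂ) := by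
      rw [Complex.conj_mul']
      push_cast
      ring
    have hx0 : PI (fun ζ => TT w (φ ζ)) z = 0 := h0
    -- the key formula
    have key : ∀ ζ ∈ SS, (1 + conj w * TT w (φ ζ)) * (1 - conj w * φ ζ) = 1 - conj w * w := by
      intro ζ hζ
      have hne := one_sub_ne hw1 (norm_eq (c3 hζ))
      unfold TT
      field_simp
      ring
    have eγ : PI (fun ζ => -1 / (1 - conj w * φ ζ)) z = -1 / (1 - conj w * w) := by
      have : PI (fun ζ => -1 / (1 - conj w * φ ζ)) z =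
          PI (fun ζ => -1 / (1 - conj w * w) * 1 +
            (-1 / (1 - conj w * w) * conj w) * TT w (φ ζ)) z := by
        apply PI_congr
        intro ζ hζ
        have hne := one_sub_ne hw1 (norm_eq (c3 hζ))
        rw [div_eq_iff hne]
        have h1 := key ζ hζ
        have h2 : (-1 / (1 - conj w * w) * 1 + (-1 / (1 - conj w * w) * conj w) * TT w (φ ζ)) *
            (1 - conj w * φ ζ) = -1 / (1 - conj w * w) *
              ((1 + conj w * TT w (φ ζ)) * (1 - conj w * φ ζ)) := by ring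
        rw [h2, h1]
        field_simp
      rw [this, PI_add (u := fun ζ => -1 / (1 - conj w * w) * 1)
        (v := fun ζ => (-1 / (1 - conj w * w) * conj w) * TT w (φ ζ)) continuousOn_const
        (continuousOn_const.mul hx) hz, PI_mul, PI_mul, hPIN.2.1 z hz, hx0]
      ring
    have eδ : PI (fun ζ => (φ ζ - w) * φ ζ / (1 - conj w * φ ζ) ^ 2) z =
        1 / (1 - conj w * w) * PI (fun ζ => TT w (φ (mob B ζ)) ^ 2) 0 := by
      have : PI (fun ζ => (φ ζ - w) * φ ζ / (1 - conj w * φ ζ) ^ 2) z =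
          PI (fun ζ => 1 / (1 - conj w * w) * (TT w (φ ζ) ^ 2) +
            (1 / (1 - conj w * w) * w) * TT w (φ ζ)) z := by
        apply PI_congr
        intro ζ hζ
        have hne := one_sub_ne hw1 (norm_eq (c3 hζ))
        have hxw : TT w (φ ζ) + w = φ ζ * (1 - conj w * w) / (1 - conj w * φ ζ) := by
          rw [eq_div_iff hne, add_mul, TT, div_mul_cancel₀ _ hne]
          ring
        have e1 : (φ ζ - w) * φ ζ / (1 - conj w * φ ζ) ^ 2 =
            TT w (φ ζ) * (φ ζ / (1 - conj w * φ ζ)) := by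
          unfold TT
          rw [div_mul_div_comm, _root_.sq]
        have e2 : φ ζ / (1 - conj w * φ ζ) = 1 / (1 - conj w * w) * (TT w (φ ζ) + w) := by
          rw [hxw]
          field_simp
        rw [e1, e2]
        ring
      have hx2 : ContinuousOn (fun ζ => TT w (φ ζ) ^ 2) SS := hx.pow 2
      rw [this, PI_add (u := fun ζ => 1 / (1 - conj w * w) * (TT w (φ ζ) ^ 2))
        (v := fun ζ => (1 / (1 - conj w * w) * w) * TT w (φ ζ)) (continuousOn_const.mul hx2)
        (continuousOn_const.mul hx) hz, PI_mul, PI_mul, hx0, mul_zero, add_zero, ← pull _ hx2]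
    have hpos : 0 < ‖1 / (1 - conj w * w)‖ := norm_pos_iff.2 (one_div_ne_zero hwc)
    have hmin : ‖-1 / (1 - conj w * w)‖ = ‖1 / (1 - conj w * w)‖ := by
      rw [neg_div, norm_neg]
    rw [eγ, eδ, hmin, norm_mul]
    calc ‖1 / (1 - conj w * w)‖ * ‖PI (fun ζ => TT w (φ (mob B ζ)) ^ 2) 0‖
        < ‖1 / (1 - conj w * w)‖ * 1 := mul_lt_mul_of_pos_left d2 hpos
      _ = ‖1 / (1 - conj w * w)‖ := mul_one _

/-! ### linear algebra -/

private theorem nsq (x : ℂ) : ((‖x‖ ^ 2 : ℝ) : ℂ) = x * conj x := by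
  rw [Complex.mul_conj']
  push_cast
  rfl

private theorem jac {α β γ δ e e' : ℂ} (h1 : α + γ * e + δ * conj e' = 0)
    (h2 : β + γ * e' + δ * conj e = 0) (hγ : ‖δ‖ < ‖γ‖) (hα : ‖β‖ < ‖α‖) : ‖e'‖ < ‖e‖ := by
  have ha : α = -(γ * e + δ * conj e') := by linear_combination h1
  have hb : β = -(γ * e' + δ * conj e) := by linear_combination h2
  have key : ‖α‖ ^ 2 - ‖β‖ ^ 2 = (‖γ‖ ^ 2 - ‖δ‖ ^ 2) * (‖e‖ ^ 2 - ‖e'‖ ^ 2) := by
    have : ((‖α‖ ^ 2 - ‖β‖ ^ 2 : ℝ) : ℂ) =
        (((‖γ‖ ^ 2 - ‖δ‖ ^ 2) * (‖e‖ ^ 2 - ‖e'‖ ^ 2) : ℝ) : ℂ) := by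
      rw [Complex.ofReal_sub, Complex.ofReal_mul, Complex.ofReal_sub, Complex.ofReal_sub, nsq, nsq,
        nsq, nsq, nsq, nsq, ha, hb]
      simp only [map_neg, map_add, map_mul, Complex.conj_conj]
      ring
    exact_mod_cast this
  have hα2 : ‖β‖ ^ 2 < ‖α‖ ^ 2 := pow_lt_pow_left₀ hα (norm_nonneg _) two_ne_zero
  have hγ2 : ‖δ‖ ^ 2 < ‖γ‖ ^ 2 := pow_lt_pow_left₀ hγ (norm_nonneg _) two_ne_zero
  have hpos : 0 < (‖γ‖ ^ 2 - ‖δ‖ ^ 2) * (‖e‖ ^ 2 - ‖e'‖ ^ 2) := by
    rw [← key]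
    linarith
  have h3 : 0 < ‖e‖ ^ 2 - ‖e'‖ ^ 2 := (pos_iff_pos_of_mul_pos hpos).1 (by linarith)
  exact lt_of_pow_lt_pow_left₀ 2 (norm_nonneg _) (by linarith)

private theorem invert {γ δ : ℂ} (hγ : ‖δ‖ < ‖γ‖) (L : ℂ →L[ℝ] ℂ)
    (hL : ∀ b, L b = γ * b + δ * conj b) : L.IsInvertible := by
  have hinj : Function.Injective (L : ℂ →ₗ[ℝ] ℂ) := by
    rw [injective_iff_map_eq_zero]
    intro b hb
    have hb' : γ * b + δ * conj b = 0 := by
      rw [← hL]
      exact hb
    by_contra hne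
    have h1 : γ * b = -(δ * conj b) := by linear_combination hb'
    have h2 := congrArg norm h1
    rw [norm_neg, norm_mul, norm_mul, Complex.norm_conj] at h2
    have h3 : 0 < ‖b‖ := norm_pos_iff.2 hne
    have h4 : ‖γ‖ = ‖δ‖ := mul_right_cancel₀ h3.ne' h2
    exact hγ.ne' h4
  refine ⟨(LinearEquiv.ofInjectiveEndo (L : ℂ →ₗ[ℝ] ℂ) hinj).toContinuousLinearEquiv, ?_⟩
  ext b
  rfl

/-- module DIM -/
theorem hDIM (hPIN : StPIN) (hSUB : StSUB) (hDEX : StDEX) (hDUN : StDUN) (hDDR : StDDR)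
    (hDPO : StDPO) (hTPB : StTPB) : StDIM := by
  classical
  intro φ hφ
  have hex : ∀ z ∈ D, ∃ w ∈ D, FF φ z w = 0 := hDEX φ hφ
  let E : ℂ → ℂ := fun z => if h : z ∈ D then (hex z h).choose else 0
  have hE : ∀ z ∈ D, E z ∈ D ∧ FF φ z (E z) = 0 := by
    intro z hz
    have h1 := (hex z hz).choose_spec
    simp only [E, dif_pos hz]
    exact h1
  have hDopen : IsOpen D := isOpen_ball
  have main : ∀ z ∈ D, ContDiffAt ℝ 1 E z ∧ ‖dzb E z‖ < ‖dz E z‖ := by
    intro z hz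
    obtain ⟨hw, h0⟩ := hE z hz
    obtain ⟨k1, k2⟩ := coeffs hPIN hSUB hDPO hTPB hφ hz hw h0
    obtain ⟨g1, g2⟩ := hDDR φ hφ
    have g2' := g2 z hz (E z) hw
    generalize PI (fun ζ => TT (E z) (φ ζ) * conj (TT z ζ)) z / ((1 - ‖z‖ ^ 2 : ℝ) : ℂ) = α
      at k1 g2'
    generalize PI (fun ζ => TT (E z) (φ ζ) * TT z ζ) z / ((1 - ‖z‖ ^ 2 : ℝ) : ℂ) = β at k1 g2'
    generalize PI (fun ζ => -1 / (1 - conj (E z) * φ ζ)) z = γ at k2 g2'
    generalize PI (fun ζ => (φ ζ - E z) * φ ζ / (1 - conj (E z) * φ ζ) ^ 2) z = δ at k2 g2'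
    have hcd : ContDiffAt ℝ 1 (fun p : ℂ × ℂ => FF φ p.1 p.2) (z, E z) :=
      g1.contDiffAt ((hDopen.prod hDopen).mem_nhds ⟨hz, hw⟩)
    have hinv : (fderiv ℝ (fun p : ℂ × ℂ => FF φ p.1 p.2) (z, E z) ∘L .inr ℝ ℂ ℂ).IsInvertible := by
      apply invert k2
      intro b
      have := g2' 0 b
      simp only [ContinuousLinearMap.comp_apply, ContinuousLinearMap.inr_apply]
      rw [this]
      simp
    have hev1 := hcd.eventually_apply_implicitFunction one_ne_zero hinv
    have hcdψ := hcd.contDiffAt_implicitFunction one_ne_zero hinv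
    have hself := hcd.implicitFunction_apply_self one_ne_zero hinv
    generalize hcd.implicitFunction one_ne_zero hinv = ψ at hev1 hcdψ hself
    simp only at hev1 hcdψ hself
    have hev2 : ∀ᶠ x in 𝓝 z, ψ x ∈ D := by
      have hc : ContinuousAt ψ z := hcdψ.continuousAt
      apply hc.eventually_mem
      rw [hself]
      exact hDopen.mem_nhds hw
    have hev3 : ∀ᶠ x in 𝓝 z, x ∈ D := hDopen.mem_nhds hz
    have heq : E =ᶠ[𝓝 z] ψ := by
      filter_upwards [hev1, hev2, hev3] with x h1 h2 h3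
      rw [h0] at h1
      exact hDUN φ hφ x h3 (E x) (hE x h3).1 (ψ x) h2 (hE x h3).2 h1
    have hcdE : ContDiffAt ℝ 1 E z := hcdψ.congr_of_eventuallyEq heq
    refine ⟨hcdE, ?_⟩
    -- differentiate the equation
    have hdE : HasFDerivAt E (fderiv ℝ E z) z := (hcdE.differentiableAt one_ne_zero).hasFDerivAt
    have hdF : HasFDerivAt (fun p : ℂ × ℂ => FF φ p.1 p.2)
        (fderiv ℝ (fun p : ℂ × ℂ => FF φ p.1 p.2) (z, E z)) (z, E z) :=
      (hcd.differentiableAt one_ne_zero).hasFDerivAt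
    have hcomp : HasFDerivAt (fun x => FF φ x (E x))
        ((fderiv ℝ (fun p : ℂ × ℂ => FF φ p.1 p.2) (z, E z)).comp
          ((ContinuousLinearMap.id ℝ ℂ).prod (fderiv ℝ E z))) z := by
      have hpair : HasFDerivAt (fun x : ℂ => (x, E x))
          ((ContinuousLinearMap.id ℝ ℂ).prod (fderiv ℝ E z)) z := (hasFDerivAt_id z).prodMk hdE
      exact HasFDerivAt.comp (f := fun x : ℂ => (x, E x)) z hdF hpair
    have hzero : HasFDerivAt (fun x => FF φ x (E x)) (0 : ℂ →L[ℝ] ℂ) z := by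
      have h1 : (fun x => FF φ x (E x)) =ᶠ[𝓝 z] fun _ => (0 : ℂ) := by
        filter_upwards [hev3] with x h3
        exact (hE x h3).2
      exact (hasFDerivAt_const (0 : ℂ) z).congr_of_eventuallyEq h1
    have huniq := hcomp.unique hzero
    have hlin : ∀ a : ℂ, α * a + β * conj a + γ * fderiv ℝ E z a + δ * conj (fderiv ℝ E z a) = 0 := by
      intro a
      have h1 := congrArg (fun L : ℂ →L[ℝ] ℂ => L a) huniq
      simp only [ContinuousLinearMap.comp_apply, ContinuousLinearMap.prod_apply,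
        ContinuousLinearMap.id_apply, ContinuousLinearMap.zero_apply] at h1
      rw [g2'] at h1
      exact h1
    have q1 := hlin 1
    have q2 := hlin Complex.I
    have hI : Complex.I * Complex.I = -1 := Complex.I_mul_I
    rw [map_one] at q1
    rw [Complex.conj_I] at q2
    apply jac (α := α) (β := β) (γ := γ) (δ := δ) _ _ k2 k1
    · unfold dz dzb
      simp only [map_div₀, map_add, map_mul, Complex.conj_I, map_ofNat]
      linear_combination (1 / 2) * q1 - (Complex.I / 2) * q2 + (α / 2 - β / 2) * hI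
    · unfold dz dzb
      simp only [map_div₀, map_sub, map_mul, Complex.conj_I, map_ofNat]
      linear_combination (1 / 2) * q1 + (Complex.I / 2) * q2 - (α / 2 - β / 2) * hI
  exact ⟨E, fun z hz => (hE z hz).1, fun z hz => (hE z hz).2,
    fun z hz => (main z hz).1.contDiffWithinAt, fun z hz => (main z hz).2⟩

end Pool.Agent.Helper90.QD
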