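import Pool.Agent.Helper20.QD.St5

/-!
# Project QD, part B (MP_d112a4_gt), module WNO: normalisation and the general case
-/

set_option autoImplicit false

open Filter Topology Matrix Set Metric MeasureTheory
open scoped ComplexConjugate ComplexOrder

namespace Pool.Agent.Helper90.QD

open Pool.Agent.Helper35.PM Pool.Agent.Helper20.QD

/-! ### the affine map -/

/-- the affine map `z ↦ (z - c)/a` -/
private noncomputable abbrev mm (a c z : ℂ) : ℂ := (z - c) / a

private theorem mm_inv {a c : ℂ} (ha : a ≠ 0) (w : ℂ) : mm a c (a * w + c) = w := by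
  simp only [mm]
  field_simp
  ring

private theorem mm_inj {a c : ℂ} (ha : a ≠ 0) : Function.Injective (mm a c) := by
  intro x y h
  simp only [mm] at h
  rw [div_left_inj' ha] at h
  exact sub_left_inj.1 h

private theorem mm_sub (a c x y : ℂ) : mm a c x - mm a c y = (x - y) / a := by
  simp only [mm]
  ring

private theorem log_iff {a c : ℂ} (ha : a ≠ 0) (S : Set ℂ) (q : ℂ) :
    LogOn (mm a c '' S) (fun z => z - mm a c q) ↔ LogOn S (fun z => z - q) := by
  constructor
  · rintro ⟨g, hg, he⟩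
    refine ⟨fun z => g (mm a c z) + Complex.log a, ?_, ?_⟩
    · apply ContinuousOn.add _ continuousOn_const
      apply hg.comp (by fun_prop) (mapsTo_image _ _)
    · intro z hz
      rw [Complex.exp_add, Complex.exp_log ha, ← he _ (mem_image_of_mem _ hz)]
      simp only
      rw [mm_sub]
      field_simp
  · rintro ⟨g, hg, he⟩
    refine ⟨fun w => g (a * w + c) - Complex.log a, ?_, ?_⟩
    · apply ContinuousOn.sub _ continuousOn_const
      apply hg.comp (by fun_prop)
      rintro _ ⟨z, hz, rfl⟩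
      have : a * mm a c z + c = z := by
        simp only [mm]
        field_simp
        ring
      simp only
      rw [this]
      exact hz
    · rintro _ ⟨z, hz, rfl⟩
      have : a * mm a c z + c = z := by
        simp only [mm]
        field_simp
        ring
      simp only
      rw [this, Complex.exp_sub, Complex.exp_log ha, ← he z hz, mm_sub]

private theorem inn_image {a c : ℂ} (ha : a ≠ 0) (S : Set ℂ) :
    inn (mm a c '' S) = mm a c '' inn S := by
  ext w
  constructor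
  · rintro ⟨h1, h2⟩
    refine ⟨a * w + c, ⟨?_, ?_⟩, mm_inv ha w⟩
    · intro h
      exact h1 ⟨_, h, mm_inv ha w⟩
    · intro h
      apply h2
      have := (log_iff (c := c) ha S (a * w + c)).2 h
      rw [mm_inv ha] at this
      exact this
  · rintro ⟨z, ⟨h1, h2⟩, rfl⟩
    refine ⟨?_, ?_⟩
    · rintro ⟨z', hz', he⟩
      rw [mm_inj ha he] at hz'
      exact h1 hz'
    · intro h
      exact h2 ((log_iff ha S z).1 h)

private theorem out_image {a c : ℂ} (ha : a ≠ 0) (S : Set ℂ) :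
    out (mm a c '' S) = mm a c '' out S := by
  ext w
  constructor
  · rintro ⟨h1, h2⟩
    refine ⟨a * w + c, ⟨?_, ?_⟩, mm_inv ha w⟩
    · intro h
      exact h1 ⟨_, h, mm_inv ha w⟩
    · apply (log_iff (c := c) ha S (a * w + c)).1
      rw [mm_inv ha]
      exact h2
  · rintro ⟨z, ⟨h1, h2⟩, rfl⟩
    refine ⟨?_, ?_⟩
    · rintro ⟨z', hz', he⟩
      rw [mm_inj ha he] at hz'
      exact h1 hz'
    · exact (log_iff ha S z).2 h2

private theorem mm_bij {a c : ℂ} (ha : a ≠ 0) (S : Set ℂ) : BijOn (mm a c) S (mm a c '' S) :=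
  ⟨mapsTo_image _ _, (mm_inj ha).injOn, surjOn_image _ _⟩

/-! ### the matrix of the affine map -/

private theorem exB {a c : ℂ} (ha : a ≠ 0) : ∃ B : SL,
    (∀ z, den B z ≠ 0) ∧ (∀ z, mob B z = mm a c z) ∧
    (∀ (A : SL) (z : ℂ), den (B * A * B⁻¹) (mm a c z) = den A z ∧
      (den A z ≠ 0 → mob (B * A * B⁻¹) (mm a c z) = mm a c (mob A z))) := by
  obtain ⟨s, hs⟩ : ∃ s : ℂ, s ^ 2 = a := ⟨a ^ ((1 : ℂ) / 2), by
    rw [← Complex.cpow_nat_mul]
    simp⟩
  have hs0 : s ≠ 0 := by
    rintro rfl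
    apply ha
    rw [← hs]
    simp
  let B : SL := ⟨!![s⁻¹, -c * s⁻¹; 0, s], by
    rw [Matrix.det_fin_two_of]
    field_simp
    ring⟩
  have b00 : (B : Mat) 0 0 = s⁻¹ := rfl
  have b01 : (B : Mat) 0 1 = -c * s⁻¹ := rfl
  have b10 : (B : Mat) 1 0 = 0 := rfl
  have b11 : (B : Mat) 1 1 = s := rfl
  refine ⟨B, ?_, ?_, ?_⟩
  · intro z
    unfold den
    rw [b10, b11]
    simpa using hs0
  · intro z
    unfold mob
    rw [b00, b01, b10, b11, ← hs]
    simp only [mm]
    rw [zero_mul, zero_add, div_eq_div_iff hs0 (pow_ne_zero 2 hs0)]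
    have h1 : s⁻¹ * s = 1 := inv_mul_cancel₀ hs0
    linear_combination (z * s - c * s) * h1
  · intro A z
    have hinv : ((B⁻¹ : SL) : Mat) = !![s, c * s⁻¹; 0, s⁻¹] := by
      rw [Matrix.SpecialLinearGroup.coe_inv, Matrix.adjugate_fin_two]
      simp only [b00, b01, b10, b11]
      ext i j
      fin_cases i <;> fin_cases j <;> simp
    have hmul : ((B * A * B⁻¹ : SL) : Mat) = (B : Mat) * (A : Mat) * ((B⁻¹ : SL) : Mat) := by
      rw [Matrix.SpecialLinearGroup.coe_mul, Matrix.SpecialLinearGroup.coe_mul]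
    have e00 : ((B * A * B⁻¹ : SL) : Mat) 0 0 = (A : Mat) 0 0 - c * (A : Mat) 1 0 := by
      rw [hmul, hinv]
      simp only [Matrix.mul_apply, Fin.sum_univ_two, b00, b01, Matrix.of_apply, Matrix.cons_val',
        Matrix.cons_val_zero, Matrix.cons_val_one, Matrix.cons_val_fin_one]
      field_simp
      ring
    have e01 : ((B * A * B⁻¹ : SL) : Mat) 0 1 =
        (((A : Mat) 0 0 - c * (A : Mat) 1 0) * c + (A : Mat) 0 1 - c * (A : Mat) 1 1) / a := by
      rw [hmul, hinv, ← hs]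
      simp only [Matrix.mul_apply, Fin.sum_univ_two, b00, b01, Matrix.of_apply, Matrix.cons_val',
        Matrix.cons_val_zero, Matrix.cons_val_one, Matrix.cons_val_fin_one]
      field_simp
      ring
    have e10 : ((B * A * B⁻¹ : SL) : Mat) 1 0 = a * (A : Mat) 1 0 := by
      rw [hmul, hinv, ← hs]
      simp only [Matrix.mul_apply, Fin.sum_univ_two, b10, b11, Matrix.of_apply, Matrix.cons_val',
        Matrix.cons_val_zero, Matrix.cons_val_one, Matrix.cons_val_fin_one]
      ring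
    have e11 : ((B * A * B⁻¹ : SL) : Mat) 1 1 = (A : Mat) 1 0 * c + (A : Mat) 1 1 := by
      rw [hmul, hinv]
      simp only [Matrix.mul_apply, Fin.sum_univ_two, b10, b11, Matrix.of_apply, Matrix.cons_val',
        Matrix.cons_val_zero, Matrix.cons_val_one, Matrix.cons_val_fin_one]
      field_simp
      ring
    have hden : den (B * A * B⁻¹) (mm a c z) = den A z := by
      unfold den
      rw [e10, e11]
      simp only [mm]
      field_simp
      ring
    refine ⟨hden, ?_⟩
    intro hA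
    have h1 : mob (B * A * B⁻¹) (mm a c z) =
        (((B * A * B⁻¹ : SL) : Mat) 0 0 * mm a c z + ((B * A * B⁻¹ : SL) : Mat) 0 1) /
          den (B * A * B⁻¹) (mm a c z) := rfl
    have h2 : mob A z = ((A : Mat) 0 0 * z + (A : Mat) 0 1) / den A z := rfl
    have h3 : ((B * A * B⁻¹ : SL) : Mat) 0 0 * mm a c z + ((B * A * B⁻¹ : SL) : Mat) 0 1 =
        ((A : Mat) 0 0 * z + (A : Mat) 0 1 - c * den A z) / a := by
      rw [e00, e01]
      unfold den
      simp only [mm]
      field_simp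
      ring
    rw [h1, h3, hden, h2]
    simp only [mm]
    field_simp

/-! ### limit sets -/

private theorem act_inj {B : SL} (hLQC : StLQC) {P Q : Mat} (hP : P ∈ sph) (hQ : Q ∈ sph)
    (h : act B P = act B Q) : P = Q := by
  have hone : ∀ R : Mat, R ∈ sph → act B⁻¹ (act B R) = R := by
    intro R hR
    rw [← hLQC.2.2.2.2.2.2.2.2.2.2 B⁻¹ B R hR.1 hR.2.1, inv_mul_cancel]
    unfold act density
    rw [Matrix.SpecialLinearGroup.coe_one, Matrix.one_mul, Matrix.conjTranspose_one, Matrix.mul_one,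
      hR.2.1, inv_one, one_smul]
  rw [← hone P hP, h, hone Q hQ]

private theorem Lam_image {Γ : Type} [Group Γ] {ρ0 ρ1 : Γ →* SL} {B : SL} {a c : ℂ} (ha : a ≠ 0)
    (hLQC : StLQC) (hsub : limitSet ρ0 ⊆ sph) (hl : limitSet ρ1 = act B '' limitSet ρ0)
    (hd : ∀ z, den B z ≠ 0) (hm : ∀ z, mob B z = mm a c z) : Lam ρ1 = mm a c '' Lam ρ0 := by
  have hact : ∀ z, act B (Qp z) = Qp (mm a c z) := by
    intro z
    rw [(hLQC.2.2.2.2.2.2.2.1 B z).1 (hd z), hm]
  ext w
  constructor
  · intro hw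
    have hw' : Qp w ∈ limitSet ρ1 := hw
    rw [hl] at hw'
    obtain ⟨R, hR, hRw⟩ := hw'
    refine ⟨a * w + c, ?_, mm_inv ha w⟩
    have h1 : act B (Qp (a * w + c)) = act B R := by
      rw [hact, mm_inv ha, hRw]
    have h2 := act_inj hLQC (hLQC.2.2.1 _).1 (hsub hR) h1
    change Qp (a * w + c) ∈ limitSet ρ0
    rw [h2]
    exact hR
  · rintro ⟨z, hz, rfl⟩
    change Qp (mm a c z) ∈ limitSet ρ1
    rw [hl, ← hact]
    exact ⟨_, hz, rfl⟩

/-- module WNO -/
theorem hWNO (_hTPB : StTPB) (_hSUB : StSUB) (_hLFR : StLFR) (hLQC : StLQC) (hLLS : StLLS)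
    (_hLLA : StLLA) (hLNF : StLNF) (hLCJ : StLCJ) (hLGO : StLGO) (hFSD : StFSD) (hWMA : StWMA) :
    StWNO := by
  intro Γ _ ρ hCC hcirc hside
  have hsub : limitSet ρ ⊆ sph := (hLLS Γ ρ hCC.discrete).2.1
  obtain ⟨Q, hQ, hQn⟩ := hLNF (limitSet ρ) hcirc hsub
  obtain ⟨B0, hB0⟩ := hLCJ.2 Q hQ
  obtain ⟨c1, c2, c3, c4⟩ := hLCJ.1 Γ ρ B0 hCC
  have hinf : Qinf ∉ limitSet (cj B0 ρ) := by
    rw [c2]
    rintro ⟨R, hR, hRe⟩
    rw [← hB0] at hRe
    rw [act_inj hLQC (hsub hR) hQ hRe] at hR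
    exact hQn hR
  have hgood : Good (cj B0 ρ) := by
    rcases hside with h | ⟨σ0, hσ0⟩
    · have h1 := hLGO Γ (cj B0 ρ) c1 hinf (c3 hcirc)
      exact h1.2.2.1 (h1.2.1 (c4 h))
    · exact (hFSD Γ σ0 (cj B0 ρ) hσ0 c1 hinf).2
  obtain ⟨σ, τ, W, f, E, k, a, c, hB⟩ := hWMA Γ (cj B0 ρ) hgood
  have ha : a ≠ 0 := hB.a0
  obtain ⟨B1, hd1, hm1, hk1⟩ := exB (a := a) (c := c) ha
  obtain ⟨-, d2, -, -⟩ := hLCJ.1 Γ (cj B0 ρ) B1 c1
  have hsub0 : limitSet (cj B0 ρ) ⊆ sph := (hLLS Γ (cj B0 ρ) c1.discrete).2.1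
  have hLam : Lam (cj B1 (cj B0 ρ)) = mm a c '' Lam (cj B0 ρ) :=
    Lam_image ha hLQC hsub0 d2 hd1 hm1
  have hinn : inn (Lam (cj B1 (cj B0 ρ))) = mm a c '' inn (Lam (cj B0 ρ)) := by
    rw [hLam, inn_image ha]
  have hout : out (Lam (cj B1 (cj B0 ρ))) = mm a c '' out (Lam (cj B0 ρ)) := by
    rw [hLam, out_image ha]
  have hcj : cj (B1 * B0) ρ = cj B1 (cj B0 ρ) := by
    unfold cj
    rw [map_mul]
    rfl
  have hcj1 : ∀ γ, cj B1 (cj B0 ρ) γ = B1 * (cj B0 ρ γ) * B1⁻¹ := fun γ => rfl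
  have hden : ∀ γ z, den (cj B1 (cj B0 ρ) γ) (mm a c z) = den (cj B0 ρ γ) z := by
    intro γ z
    rw [hcj1]
    exact (hk1 _ z).1
  have hmob : ∀ γ z, den (cj B0 ρ γ) z ≠ 0 →
      mob (cj B1 (cj B0 ρ) γ) (mm a c z) = mm a c (mob (cj B0 ρ γ) z) := by
    intro γ z h
    rw [hcj1]
    exact (hk1 _ z).2 h
  have hone : OneSide (cj B1 (cj B0 ρ)) τ (fun z => mm a c (f z)) := by
    refine ⟨?_, ?_, ?_, ?_, hB.one.fuch, ?_⟩
    · exact (hB.one.cont.sub continuousOn_const).div_const a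
    · exact (hB.one.hol.sub_const c).div_const a
    · rw [hinn]
      exact (mm_bij ha _).comp hB.one.bij
    · rw [hLam]
      exact (mm_bij ha _).comp hB.one.bijS
    · intro γ z hz
      obtain ⟨h1, h2⟩ := hB.one.eqv γ z hz
      refine ⟨?_, ?_⟩
      · rw [hden]
        exact h1
      · rw [hmob γ _ h1, h2]
  have hder : ∀ z ∈ D, dz (fun z => mm a c (W z)) z = dz W z / a ∧
      dzb (fun z => mm a c (W z)) z = dzb W z / a := by
    intro z hz
    have hdiff : DifferentiableAt ℝ W z :=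
      (hB.c1.contDiffAt (isOpen_ball.mem_nhds hz)).differentiableAt one_ne_zero
    have h1 : HasFDerivAt (fun z => mm a c (W z)) (a⁻¹ • fderiv ℝ W z) z := by
      have h2 := (hdiff.hasFDerivAt.sub_const c).const_mul a⁻¹
      have h3 : (fun z => mm a c (W z)) = fun y => a⁻¹ * (W y - c) := by
        funext y
        simp only [mm]
        rw [div_eq_inv_mul]
      rw [h3]
      exact h2
    unfold dz dzb
    rw [h1.fderiv]
    simp only [FunLike.coe_smul, Pi.smul_apply, smul_eq_mul]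
    constructor
    · ring
    · ring
  refine ⟨B1 * B0, σ, τ, fun z => mm a c (W z), fun z => mm a c (f z), E, k, ?_⟩
  rw [hcj]
  refine
    { k0 := hB.k0
      k1 := hB.k1
      a0 := one_ne_zero
      fs := hB.fs
      one := hone
      homeo := ?_
      asy := ?_
      hol := (hB.hol.sub_const c).div_const a
      inside := ?_
      econt := hB.econt
      ebij := hB.ebij
      ebijS := hB.ebijS
      ec1 := hB.ec1
      edil := hB.edil
      c1 := ?_
      dil := ?_
      imD := ?_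
      imS := ?_
      imO := ?_
      eqvE := hB.eqvE
      eqv := ?_ }
  · have hh : IsHomeomorph (mm a c) := by
      have : mm a c = ((Homeomorph.subRight c).trans (Homeomorph.mulRight₀ a⁻¹ (inv_ne_zero ha))) := by
        funext z
        simp [mm, div_eq_mul_inv]
      rw [this]
      exact Homeomorph.isHomeomorph _
    exact hh.comp hB.homeo
  · have h1 := hB.asy.div_const a
    rw [zero_div] at h1
    apply h1.congr
    intro z
    simp only [mm]
    field_simp
    ring
  · intro z hz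
    rw [hB.inside z hz]
  · exact (hB.c1.sub contDiffOn_const).div_const a
  · intro z hz
    obtain ⟨h1, h2⟩ := hder z hz
    obtain ⟨h3, h4⟩ := hB.dil z hz
    rw [h1, h2]
    refine ⟨div_ne_zero h3 ha, ?_⟩
    rw [norm_div, norm_div, ← mul_div_assoc]
    exact div_le_div_of_nonneg_right h4 (norm_nonneg _)
  · rw [hinn, ← hB.imD, image_image]
  · rw [hLam, ← hB.imS, image_image]
  · rw [hout, ← hB.imO, image_image]
  · intro γ z
    obtain ⟨h1, h2⟩ := hB.eqv γ z
    refine ⟨?_, ?_⟩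
    · rw [hden]
      exact h1
    · intro h3
      have h4 : den (cj B0 ρ γ) (W z) ≠ 0 := fun h => h3 (h1.2 h)
      rw [h2 h3, hmob γ _ h4]

end Pool.Agent.Helper90.QD
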