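import Pool.Agent.Helper58.QD.StS

/-! # Project QD, module Col: almost minimal primitive with a sup bound on the collar -/

set_option autoImplicit false

namespace Pool.Agent.Helper90.QD

open Helper62.LH Helper62.DSH Helper58.QD MeasureTheory Set Filter Topology
open scoped ContDiff ENNReal

variable {n : ℕ}

private theorem q2_eq_Col (hNrm : TNrm) {j : ℕ} (v : E n → Tn n j) :
    (fun y => q2 (v y)) = fun y => (∑ I, v y I ^ 2) / (j.factorial : ℝ) := by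
  funext y
  exact ((hNrm n j).1 (v y)).2.2

private theorem q2_int_Col (hNrm : TNrm) {j : ℕ} {v : E n → Tn n j} (hv : L2t v) {K : Set (E n)}
    (hK : IsCompact K) {V : E n → ℝ} (hV : Continuous V) :
    IntegrableOn (fun y => q2 (v y) * V y) K := by
  have h1 : IntegrableOn (fun y => q2 (v y)) K := by
    rw [q2_eq_Col hNrm]
    refine Integrable.div_const ?_ _
    exact integrable_finsetSum _ fun I _ => (hv I).2 K hK
  exact h1.mul_continuousOn hV.continuousOn hK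

/-- an almost everywhere statement on a family of open sets holds on the union -/
private theorem ae_union_Col {ι : Type} (s : ι → Set (E n)) (hs : ∀ i, IsOpen (s i))
    (Q : E n → Prop) (h : ∀ i, ∀ᵐ y ∂(volume.restrict (s i)), Q y) :
    ∀ᵐ y ∂(volume.restrict (⋃ i, s i)), Q y := by
  obtain ⟨T, hTc, hT⟩ := TopologicalSpace.isOpen_iUnion_countable s hs
  rw [← hT]
  exact (ae_restrict_biUnion_iff s hTc Q).2 fun i _ => h i

theorem hCol (hMet : StMet) (hDlv : StDlv) (hNrm : TNrm) (hBal : SBal) (hBgv : SBgv) (hGrw : SGrw)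
    (hMve : SMve) (hMin : SMin) (hMop : SMop) : SCol := by
  intro n m g Γ F G hg hΓ hF hc hsec p b β κ₀ r0 hb hβ A hA hW
  obtain ⟨hcv, hvp, -⟩ := hDlv n g Γ hg hΓ
  have hvc : Continuous (vol g) := hcv.continuous
  obtain ⟨-, -, hd0, -, hds, -⟩ := hMet n g hg
  obtain ⟨-, hAnc, R0, hR01, hgr⟩ := hGrw n g Γ hg p b β κ₀ r0 hb hβ
  obtain ⟨-, hBg2, hBg3⟩ := hBgv n g Γ hg hΓ hc hsec
  obtain ⟨C₁, hC₁, hmv⟩ := hMve n m g Γ F G hg hΓ hF hc hsec A hA
  have hκ0 : 0 < κ₀ := hb.kpos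
  obtain ⟨D, hD⟩ : ∃ D : ℝ, D = 1 + 2 / κ₀ := ⟨_, rfl⟩
  have hD1 : 1 ≤ D := by
    rw [hD]
    have : 0 < 2 / κ₀ := by positivity
    linarith
  refine ⟨C₁ * (64 * D) ^ n, max 20 (4 * R0), by positivity, le_trans (by norm_num)
    (le_max_left _ _), ?_⟩
  intro T a hT haT P hP u0 hu0 κ hκ
  have hT20 : 20 ≤ T := (le_max_left _ _).trans hT
  have hTR : 4 * R0 ≤ T := (le_max_right _ _).trans hT
  have hTpos : 0 < T := by linarith
  obtain ⟨V, hV⟩ : ∃ V : ℝ, V = vb g p T := ⟨_, rfl⟩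
  have hVpos : 0 < V := by
    rw [hV]
    exact (hBal n g Γ hg hΓ hc p).2.2.1 T hTpos
  obtain ⟨C₂, hC₂⟩ : ∃ C₂ : ℝ, C₂ = C₁ * (64 * D) ^ n := ⟨_, rfl⟩
  have hC₂pos : 0 < C₂ := by rw [hC₂]; positivity
  rw [← hC₂, ← hV]
  have hκ₁ : 0 < κ / (2 * (1 + C₂ / V)) := by positivity
  obtain ⟨κ₁, hκ₁e⟩ : ∃ κ₁ : ℝ, κ₁ = κ / (2 * (1 + C₂ / V)) := ⟨_, rfl⟩
  rw [← hκ₁e] at hκ₁
  obtain ⟨ψ, η, hψs, hψ0, hψZ, hηA, hηL, hηJ, hηu, hηI⟩ :=
    hMin n m g Γ F G hg hΓ hF p b β κ₀ r0 hb hβ P hP u0 hu0 a T κ₁ hκ₁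
  obtain ⟨I, hI⟩ : ∃ I : ℝ, I = ∫ x in An β a T, q2 (u0 x) * vol g x := ⟨_, rfl⟩
  rw [← hI] at hηI ⊢
  obtain ⟨ρ, hρ⟩ : ∃ ρ : ℝ, ρ = T / 64 := ⟨_, rfl⟩
  have hρpos : 0 < ρ := by rw [hρ]; positivity
  have hq0 : ∀ y, 0 ≤ q2 (η y) * vol g y := fun y =>
    mul_nonneg ((hNrm n (m + 1)).1 (η y)).1 (hvp y).le
  have hInn : 0 ≤ I := by
    rw [hI]
    exact integral_nonneg fun y => mul_nonneg ((hNrm n (m + 1)).1 (u0 y)).1 (hvp y).le
  -- facts on the balls about the points of the collar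
  have hball : ∀ x ∈ An β (T / 2 - 2) (3 * T / 4 + 2), ∀ y ∈ Ba g x ρ,
      y ∈ An β a T ∧ ρ ≤ dg g p y := by
    intro x hx y hy
    have h1 : |b x - b y| ≤ dg g x y := hb.lip x y
    have h2 : dg g x y < ρ := hy
    have h3 := abs_le.1 (hβ.near x)
    have h4 := abs_le.1 (hβ.near y)
    have h5 := abs_le.1 h1
    have h6 : T / 2 - 2 ≤ β x := hx.1
    have h7 : β x ≤ 3 * T / 4 + 2 := hx.2
    rw [hρ] at h2
    have h8 : T / 4 ≤ β y := by linarith [h3.1, h3.2, h4.1, h4.2, h5.1, h5.2]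
    have h9 : β y ≤ T := by linarith [h3.1, h3.2, h4.1, h4.2, h5.1, h5.2]
    refine ⟨⟨haT.trans h8, h9⟩, ?_⟩
    have h10 := (hgr y (by linarith)).2
    rw [hρ]
    linarith
  have hvol : ∀ x ∈ An β (T / 2 - 2) (3 * T / 4 + 2), V ≤ (64 * D) ^ n * vb g x ρ := by
    intro x hx
    have h6 : T / 2 - 2 ≤ β x := hx.1
    have h7 : β x ≤ 3 * T / 4 + 2 := hx.2
    have h8 := (hgr x (by linarith)).1
    have h9 : dg g p x ≤ 2 / κ₀ * T := by
      rw [div_mul_eq_mul_div, le_div_iff₀ hκ0]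
      nlinarith
    have h10 := hBg3 p x T
    have h11 : vb g x (T + dg g p x) ≤ vb g x (D * T) := by
      refine (hBal n g Γ hg hΓ hc x).2.2.2.2 _ _ ?_
      rw [hD]
      linarith
    have hD0 : 0 < D := by linarith
    have h12 := hBg2 x (D * T) (1 / (64 * D)) (by positivity) (by
      rw [div_le_one (by positivity)]
      linarith)
    have h13 : 1 / (64 * D) * (D * T) = ρ := by
      rw [hρ]
      field_simp
    rw [h13, one_div_one_div] at h12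
    rw [hV]
    linarith
  have hvbpos : ∀ x, 0 < vb g x ρ := fun x => (hBal n g Γ hg hΓ hc x).2.2.1 ρ hρpos
  -- the almost everywhere bound
  obtain ⟨a₀, ha₀⟩ : ∃ a₀ : ℝ, a₀ = C₂ / V * (I + κ₁) := ⟨_, rfl⟩
  have ha₀0 : 0 ≤ a₀ := by
    rw [ha₀]
    positivity
  have hmean : ∀ x ∈ An β (T / 2 - 2) (3 * T / 4 + 2),
      ∀ᵐ y ∂(volume.restrict (Ba g x (ρ / 2))), q2 (η y) ≤ a₀ := by
    intro x hx
    have hWLo : WLo g Γ F m (Ba g x ρ) (A / ρ ^ 2) := by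
      intro y hy t ht
      have h1 := (hball x hx y hy).2
      have h2 := hW y t ht
      have h3 : A / (1 + dg g p y ^ 2) ≤ A / ρ ^ 2 := by
        refine div_le_div_of_nonneg_left hA (by positivity) ?_
        have : ρ ^ 2 ≤ dg g p y ^ 2 := pow_le_pow_left₀ hρpos.le h1 2
        linarith
      have h4 : A / (1 + dg g p y ^ 2) * q2 t ≤ A / ρ ^ 2 * q2 t :=
        mul_le_mul_of_nonneg_right h3 ((hNrm n (m + 1)).1 t).1
      linarith
    have h1 := hmv ψ P η hψs hψ0 hP.smooth hP.alt hP.cocl hηL hηJ x ρ hρpos hWLo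
      (fun y hy => hψZ y (hball x hx y hy).1)
    have h2 : ∫ z in Ba g x ρ, q2 (η z) * vol g z ≤ I + κ₁ := by
      refine le_trans ?_ hηI
      refine setIntegral_mono_set (q2_int_Col hNrm hηL (hAnc a T) hvc) ?_ ?_
      · exact Eventually.of_forall hq0
      · exact (show Ba g x ρ ⊆ An β a T from fun y hy => (hball x hx y hy).1).eventuallyLE
    have h3 : C₁ / vb g x ρ * ∫ z in Ba g x ρ, q2 (η z) * vol g z ≤ a₀ := by
      have h4 : C₁ / vb g x ρ ≤ C₂ / V := by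
        rw [div_le_div_iff₀ (hvbpos x) hVpos, hC₂]
        calc C₁ * V ≤ C₁ * ((64 * D) ^ n * vb g x ρ) :=
              mul_le_mul_of_nonneg_left (hvol x hx) hC₁.le
          _ = C₁ * (64 * D) ^ n * vb g x ρ := by ring
      rw [ha₀]
      refine mul_le_mul h4 h2 (integral_nonneg hq0) (by positivity)
    filter_upwards [h1] with y hy
    exact hy.trans h3
  -- the open set
  have hcov : An β (T / 2 - 2) (3 * T / 4 + 2) ⊆
      ⋃ x : An β (T / 2 - 2) (3 * T / 4 + 2), Ba g (x : E n) (ρ / 2) := by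
    intro x hx
    refine mem_iUnion.2 ⟨⟨x, hx⟩, ?_⟩
    change dg g x x < ρ / 2
    have h1 := (hBal n g Γ hg hΓ hc x).2.2.1 ρ hρpos
    have h2 : dg g x x = 0 := (hMet n g hg).2.2.2.1 x
    rw [h2]
    positivity
  have hopen : ∀ x : An β (T / 2 - 2) (3 * T / 4 + 2), IsOpen (Ba g (x : E n) (ρ / 2)) :=
    fun x => (hBal n g Γ hg hΓ hc x).1 _
  have hae := ae_union_Col (fun x : An β (T / 2 - 2) (3 * T / 4 + 2) => Ba g (x : E n) (ρ / 2))
    hopen (fun y => q2 (η y) ≤ a₀) (fun x => hmean x x.2)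
  obtain ⟨u, hu, huI, huS⟩ := hMop n m g Γ F G hg hΓ hF P η hηL hηu
    (⋃ x : An β (T / 2 - 2) (3 * T / 4 + 2), Ba g (x : E n) (ρ / 2)) a₀ (isOpen_iUnion hopen) ha₀0
    hae (An β a T) (An β (T / 2 - 2) (3 * T / 4 + 2)) (hAnc a T) (hAnc _ _) hcov (κ / 2)
    (by positivity)
  have hk1 : κ₁ ≤ κ / 2 := by
    rw [hκ₁e]
    refine div_le_div_of_nonneg_left hκ.le (by norm_num) ?_
    have : 0 < C₂ / V := by positivity
    linarith
  have hk2 : C₂ / V * κ₁ ≤ κ / 2 := by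
    rw [hκ₁e]
    have h1 : 0 < C₂ / V := by positivity
    rw [mul_div_assoc', div_le_div_iff₀ (by positivity) (by norm_num)]
    nlinarith
  refine ⟨u, hu, ?_, ?_⟩
  · linarith
  · intro x hx1 hx2
    have h1 := huS x ⟨hx1, hx2⟩
    rw [ha₀, mul_add] at h1
    linarith

end Pool.Agent.Helper90.QD
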